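import Mathlib

/-!
# Lower bound for the degree in the curve-covering question for `k`-bounded subsets of `𝔽_p²`
-/

set_option autoImplicit false

namespace Pool.Agent.Results.MP_3ac1bb_co.DegreeLowerBound

/-- `A` meets each line of the affine plane over `ZMod p` in at most `k` points. -/
def KBounded (p k : ℕ) (A : Set (Fin 2 → ZMod p)) : Prop :=
  ∀ a b c : ZMod p, (a ≠ 0 ∨ b ≠ 0) →
    (A ∩ {v : Fin 2 → ZMod p | a * v 0 + b * v 1 = c}).ncard ≤ k

/-- `D` is an admissible degree for `k`: for every `ε > 0` and all large primes `p`, every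
`k`-bounded set is contained, up to at most `ε p` points, in a curve of degree at most `D`. -/
def DegreeWorks (k D : ℕ) : Prop :=
  ∀ ε : ℝ, ε > 0 → ∃ p₀ : ℕ, ∀ p : ℕ, p.Prime → p₀ ≤ p →
    ∀ A : Set (Fin 2 → ZMod p), KBounded p k A →
      ∃ f : MvPolynomial (Fin 2) (ZMod p), f ≠ 0 ∧ f.totalDegree ≤ D ∧
        ((A ∩ {v : Fin 2 → ZMod p | MvPolynomial.eval v f ≠ 0}).ncard : ℝ) ≤ ε * p

/-- The set: points `(x, x² + ⌊x / L⌋)` with `x ∈ [0, M L)`. -/
def arcs (p M L : ℕ) : Set (Fin 2 → ZMod p) :=
  {v | (v 0).val < M * L ∧ v 1 = (v 0) ^ 2 + (((v 0).val / L : ℕ) : ZMod p)}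

section Bounded

variable (p : ℕ) [hp : Fact p.Prime] (M L : ℕ)

/-- first coordinates of the points of a non-vertical line -/
noncomputable def roots (m β : ZMod p) : Finset (ZMod p) :=
  Finset.univ.filter fun x : ZMod p =>
    x.val < M * L ∧ x ^ 2 + ((x.val / L : ℕ) : ZMod p) = m * x + β

theorem mem_roots {m β x : ZMod p} : x ∈ roots p M L m β ↔
    x.val < M * L ∧ x ^ 2 + ((x.val / L : ℕ) : ZMod p) = m * x + β := by
  simp [roots]

/-- Two different points of one line on one arc. -/
theorem sum_eq {m β x y : ZMod p} (hx : x ∈ roots p M L m β) (hy : y ∈ roots p M L m β)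
    (hxy : x ≠ y) (hi : x.val / L = y.val / L) : x + y = m := by
  rw [mem_roots] at hx hy
  have h1 := hx.2
  have h2 := hy.2
  rw [hi] at h1
  have h3 : (x - y) * (x + y - m) = 0 := by linear_combination h1 - h2
  rcases mul_eq_zero.1 h3 with h | h
  · exact absurd (sub_eq_zero.1 h) hxy
  · exact sub_eq_zero.1 h

theorem idx_of_sum {x y z w : ZMod p} (hL : 0 < L) (hML : 2 * (M * L) ≤ p)
    (hx : x.val < M * L) (hy : y.val < M * L) (hz : z.val < M * L) (hw : w.val < M * L)
    (hxy : x.val / L = y.val / L) (hzw : z.val / L = w.val / L) (h : x + y = z + w) :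
    x.val / L = z.val / L := by
  have h1 : (x + y).val = x.val + y.val := ZMod.val_add_of_lt (by omega)
  have h2 : (z + w).val = z.val + w.val := ZMod.val_add_of_lt (by omega)
  have h3 : x.val + y.val = z.val + w.val := by rw [← h1, ← h2, h]
  have ex := Nat.div_add_mod x.val L
  have ey := Nat.div_add_mod y.val L
  have ez := Nat.div_add_mod z.val L
  have ew := Nat.div_add_mod w.val L
  have lx := Nat.mod_lt x.val hL
  have ly := Nat.mod_lt y.val hL
  have lz := Nat.mod_lt z.val hL
  have lw := Nat.mod_lt w.val hL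
  rw [← hxy] at ey
  rw [← hzw] at ew
  by_contra hne
  rcases Nat.lt_or_gt_of_ne hne with hlt | hlt
  · have : L * (x.val / L + 1) ≤ L * (z.val / L) := Nat.mul_le_mul_left L hlt
    rw [mul_add, mul_one] at this
    omega
  · have : L * (z.val / L + 1) ≤ L * (x.val / L) := Nat.mul_le_mul_left L hlt
    rw [mul_add, mul_one] at this
    omega

/-- A non-vertical line meets the arcs in at most `M + 1` points. -/
theorem card_roots_le (hL : 0 < L) (hML : 2 * (M * L) ≤ p) (m β : ZMod p) :
    (roots p M L m β).card ≤ M + 1 := by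
  classical
  have hidx : ∀ x ∈ roots p M L m β, x.val / L ∈ Finset.range M := by
    intro x hx
    rw [mem_roots] at hx
    rw [Finset.mem_range]
    exact Nat.div_lt_of_lt_mul (by rw [mul_comm]; exact hx.1)
  by_cases hinj : Set.InjOn (fun x : ZMod p => x.val / L) (roots p M L m β : Set (ZMod p))
  · have := Finset.card_le_card_of_injOn (fun x : ZMod p => x.val / L) hidx hinj
    rw [Finset.card_range] at this
    omega
  · -- two points on the same arc
    rw [Set.InjOn] at hinj
    push Not at hinj
    obtain ⟨x, hx, x', hx', hxx, hne⟩ := hinj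
    simp only [Finset.mem_coe] at hx hx'
    have hs := sum_eq p M L hx hx' hne hxx
    have hinj' : Set.InjOn (fun x : ZMod p => x.val / L)
        (((roots p M L m β).erase x : Finset (ZMod p)) : Set (ZMod p)) := by
      intro y hy y' hy' hyy
      simp only [Finset.coe_erase, Set.mem_sdiff, Finset.mem_coe, Set.mem_singleton_iff] at hy hy'
      simp only at hyy
      by_contra hne'
      have hs' := sum_eq p M L hy.1 hy'.1 hne' hyy
      have h1 := (mem_roots p M L).1 hx
      have h1' := (mem_roots p M L).1 hx'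
      have h2 := (mem_roots p M L).1 hy.1
      have h2' := (mem_roots p M L).1 hy'.1
      have hi := idx_of_sum p M L hL hML h1.1 h1'.1 h2.1 h2'.1 hxx hyy (hs.trans hs'.symm)
      -- `y` is a root of the quadratic with roots `x, x'`
      have key : ∀ z, z ∈ roots p M L m β → x.val / L = z.val / L → z ≠ x → z = x' := by
        intro z hz hzi hzx
        have h3 := sum_eq p M L hz hx hzx hzi.symm
        have : z + x = x' + x := by rw [h3, ← hs, add_comm]
        exact add_right_cancel this
      have e1 := key y hy.1 hi hy.2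
      have e2 := key y' hy'.1 (hi.trans hyy) hy'.2
      exact hne' (e1.trans e2.symm)
    have hidx' : ∀ y ∈ (roots p M L m β).erase x, y.val / L ∈ Finset.range M :=
      fun y hy => hidx y (Finset.mem_of_mem_erase hy)
    have h1 := Finset.card_le_card_of_injOn (fun x : ZMod p => x.val / L) hidx' hinj'
    rw [Finset.card_range, Finset.card_erase_of_mem hx] at h1
    omega

theorem arcs_kBounded (hL : 0 < L) (hML : 2 * (M * L) ≤ p) : KBounded p (M + 1) (arcs p M L) := by
  classical
  intro a b c hab
  by_cases hb : b = 0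
  · -- vertical line
    have ha : a ≠ 0 := by
      rcases hab with h | h
      · exact h
      · exact absurd hb h
    have hsub : (arcs p M L ∩ {v : Fin 2 → ZMod p | a * v 0 + b * v 1 = c}).Subsingleton := by
      rintro v ⟨hv, hv'⟩ w ⟨hw, hw'⟩
      simp only [Set.mem_ofPred_eq, hb, zero_mul, add_zero] at hv' hw'
      have h0 : v 0 = w 0 := mul_left_cancel₀ ha (hv'.trans hw'.symm)
      funext i
      fin_cases i
      · exact h0
      · have h1 := hv.2
        have h2 := hw.2
        rw [h0] at h1
        exact h1.trans h2.symm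
    have := Set.ncard_le_one_iff_subsingleton.2 hsub
    omega
  · set m : ZMod p := -a / b with hm
    set β : ZMod p := c / b with hβ
    have h1 : (arcs p M L ∩ {v : Fin 2 → ZMod p | a * v 0 + b * v 1 = c}).ncard ≤
        ((roots p M L m β : Finset (ZMod p)) : Set (ZMod p)).ncard := by
      apply Set.ncard_le_ncard_of_injOn (fun v => v 0)
      · rintro v ⟨hv, hv'⟩
        simp only [Set.mem_ofPred_eq] at hv'
        rw [Finset.mem_coe, mem_roots]
        refine ⟨hv.1, ?_⟩
        rw [← hv.2, hm, hβ]
        field_simp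
        linear_combination hv'
      · rintro v ⟨hv, _⟩ w ⟨hw, _⟩ h0
        simp only at h0
        funext i
        fin_cases i
        · exact h0
        · have h1 := hv.2
          have h2 := hw.2
          rw [h0] at h1
          exact h1.trans h2.symm
    rw [Set.ncard_coe_finset] at h1
    exact h1.trans (card_roots_le p M L hL hML m β)

end Bounded

section Degree

open MvPolynomial

variable {K : Type} [Field K]

/-- restriction of `f` to the parabola `y = x² + c` -/
noncomputable def restr (c : K) : MvPolynomial (Fin 2) K →ₐ[K] Polynomial K :=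
  aeval ![Polynomial.X, Polynomial.X ^ 2 + Polynomial.C c]

/-- equation of the parabola `y = x² + c` -/
noncomputable def par (c : K) : MvPolynomial (Fin 2) K := X 1 - X 0 ^ 2 - C c

theorem restr_par (c d : K) : restr d (par c) = Polynomial.C (d - c) := by
  simp only [restr, par, map_sub, map_pow, aeval_X, Matrix.cons_val_one, Matrix.cons_val_zero,
    MvPolynomial.algHom_C, Polynomial.algebraMap_eq]
  ring

theorem par_dvd (c : K) (f : MvPolynomial (Fin 2) K) (h : restr c f = 0) : par c ∣ f := by
  rw [← Ideal.mem_span_singleton, ← Ideal.Quotient.eq_zero_iff_mem]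
  set I : Ideal (MvPolynomial (Fin 2) K) := Ideal.span {par c} with hI
  have key : Ideal.Quotient.mkₐ K I =
      (Polynomial.aeval (Ideal.Quotient.mkₐ K I (X 0))).comp (restr c) := by
    apply MvPolynomial.algHom_ext
    intro i
    fin_cases i
    · simp [restr]
    · simp only [restr, AlgHom.comp_apply, aeval_X]
      have h0 : Ideal.Quotient.mkₐ K I (par c) = 0 := by
        rw [Ideal.Quotient.mkₐ_eq_mk, Ideal.Quotient.eq_zero_iff_mem, hI]
        exact Ideal.mem_span_singleton_self _
      rw [par, map_sub, map_sub, map_pow, sub_eq_zero, sub_eq_iff_eq_add] at h0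
      simp only [Fin.mk_one, Matrix.cons_val_one, Matrix.cons_val_zero, map_add, map_pow,
        Polynomial.aeval_X, Polynomial.aeval_C]
      rw [h0, add_comm]
      congr 1
  have h1 : Ideal.Quotient.mkₐ K I f = 0 := by
    rw [key, AlgHom.comp_apply, h, map_zero]
  exact h1

theorem two_le_totalDegree_par (c : K) : 2 ≤ (par c).totalDegree := by
  have h1 : coeff (Finsupp.single 0 2) (par c) = -1 := by
    rw [par, coeff_sub, coeff_sub, coeff_X_pow, coeff_C, coeff_X]
    have e1 : ¬ (Finsupp.single (1 : Fin 2) 1 = Finsupp.single 0 2) := by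
      intro h
      have := DFunLike.congr_fun h 1
      simp at this
    have e2 : ¬ ((0 : Fin 2 →₀ ℕ) = Finsupp.single 0 2) := by
      intro h
      have := DFunLike.congr_fun h 0
      simp at this
    rw [if_neg e1, if_neg e2]
    simp
  have h2 : Finsupp.single 0 2 ∈ (par c).support := by
    rw [mem_support_iff, h1]
    exact neg_ne_zero.2 one_ne_zero
  have h3 := le_totalDegree h2
  simpa using h3

/-- A nonzero polynomial vanishing on `M` different parabolas has degree at least `2 M`. -/
theorem degree_of_vanish (M : ℕ) : ∀ (c : ℕ → K), (∀ i < M, ∀ j < M, c i = c j → i = j) →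
    ∀ f : MvPolynomial (Fin 2) K, f ≠ 0 → (∀ i < M, restr (c i) f = 0) →
      2 * M ≤ f.totalDegree := by
  induction M with
  | zero => intro c _ f _ _; simp
  | succ M ih =>
    intro c hc f hf h
    obtain ⟨g, rfl⟩ := par_dvd (c M) f (h M (Nat.lt_succ_self M))
    have hp0 : par (c M) ≠ 0 := left_ne_zero_of_mul hf
    have hg0 : g ≠ 0 := right_ne_zero_of_mul hf
    have h1 : 2 * M ≤ g.totalDegree := by
      apply ih c (fun i hi j hj => hc i (by omega) j (by omega)) g hg0
      intro i hi
      have h2 := h i (by omega)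
      rw [map_mul, restr_par] at h2
      rcases mul_eq_zero.1 h2 with h3 | h3
      · rw [Polynomial.C_eq_zero, sub_eq_zero] at h3
        have := hc i (by omega) M (by omega) h3
        omega
      · exact h3
    rw [totalDegree_mul_of_isDomain hp0 hg0]
    have := two_le_totalDegree_par (c M)
    omega

theorem natDegree_restr_le (c : K) (f : MvPolynomial (Fin 2) K) :
    (restr c f).natDegree ≤ 2 * f.totalDegree := by
  rw [mul_comm]
  apply MvPolynomial.aeval_natDegree_le f le_rfl
  intro i
  fin_cases i
  · simp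
  · simp only [Fin.mk_one, Matrix.cons_val_one, Matrix.cons_val_zero]
    compute_degree

theorem eval_restr (c x : K) (f : MvPolynomial (Fin 2) K) :
    (restr c f).eval x = eval ![x, x ^ 2 + c] f := by
  have key : (Polynomial.aeval x).comp (restr c) = (aeval ![x, x ^ 2 + c] : _ →ₐ[K] K) := by
    apply MvPolynomial.algHom_ext
    intro i
    fin_cases i
    · simp [restr]
    · simp [restr]
  have := congrArg (fun φ : MvPolynomial (Fin 2) K →ₐ[K] K => φ f) key
  simp only [AlgHom.comp_apply] at this
  rw [Polynomial.coe_aeval_eq_eval] at this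
  rw [this, MvPolynomial.aeval_eq_eval]

end Degree

/-- Many points of one arc lie off a curve of low degree. -/
theorem many_off (p : ℕ) [hp : Fact p.Prime] (M L : ℕ) (hL : 0 < L) (hML : 2 * (M * L) ≤ p)
    (f : MvPolynomial (Fin 2) (ZMod p)) (i : ℕ) (hi : i < M)
    (hf : restr ((i : ℕ) : ZMod p) f ≠ 0) :
    L ≤ (arcs p M L ∩ {v : Fin 2 → ZMod p | MvPolynomial.eval v f ≠ 0}).ncard
      + 2 * f.totalDegree := by
  classical
  have hpos : 0 < p := hp.out.pos
  set x : ℕ → ZMod p := fun j => ((i * L + j : ℕ) : ZMod p) with hx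
  have hlt : ∀ j < L, i * L + j < M * L := by
    intro j hj
    have : (i + 1) * L ≤ M * L := Nat.mul_le_mul_right L hi
    rw [add_mul, one_mul] at this
    omega
  have hval : ∀ j < L, (x j).val = i * L + j := by
    intro j hj
    rw [hx]
    apply ZMod.val_natCast_of_lt
    have := hlt j hj
    omega
  have hinj : ∀ j < L, ∀ j' < L, x j = x j' → j = j' := by
    intro j hj j' hj' h
    have := congrArg ZMod.val h
    rw [hval j hj, hval j' hj'] at this
    omega
  have hdiv : ∀ j < L, (x j).val / L = i := by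
    intro j hj
    rw [hval j hj, mul_comm, Nat.mul_add_div hL, Nat.div_eq_of_lt hj, add_zero]
  set J0 := (Finset.range L).filter fun j => (restr ((i : ℕ) : ZMod p) f).eval (x j) = 0 with hJ0
  set J1 := (Finset.range L).filter fun j => ¬ (restr ((i : ℕ) : ZMod p) f).eval (x j) = 0 with hJ1
  have hcard : J0.card + J1.card = L := by
    rw [hJ0, hJ1, Finset.card_filter_add_card_filter_not, Finset.card_range]
  have h0 : J0.card ≤ 2 * f.totalDegree := by
    refine le_trans ?_ (natDegree_restr_le ((i : ℕ) : ZMod p) f)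
    refine le_trans ?_ (Polynomial.card_roots' _)
    refine le_trans ?_ (Multiset.toFinset_card_le _)
    apply Finset.card_le_card_of_injOn x
    · intro j hj
      rw [hJ0, Finset.mem_coe, Finset.mem_filter] at hj
      rw [Finset.mem_coe, Multiset.mem_toFinset, Polynomial.mem_roots hf]
      exact hj.2
    · intro j hj j' hj' h
      rw [hJ0, Finset.mem_coe, Finset.mem_filter, Finset.mem_range] at hj hj'
      exact hinj j hj.1 j' hj'.1 h
  have h1 : J1.card ≤
      (arcs p M L ∩ {v : Fin 2 → ZMod p | MvPolynomial.eval v f ≠ 0}).ncard := by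
    rw [← Set.ncard_coe_finset]
    apply Set.ncard_le_ncard_of_injOn (fun j => ![x j, (x j) ^ 2 + ((i : ℕ) : ZMod p)])
    · intro j hj
      rw [hJ1, Finset.mem_coe, Finset.mem_filter, Finset.mem_range] at hj
      refine ⟨⟨?_, ?_⟩, ?_⟩
      · simp only [Matrix.cons_val_zero]
        rw [hval j hj.1]
        exact hlt j hj.1
      · simp only [Matrix.cons_val_zero, Matrix.cons_val_one]
        rw [hdiv j hj.1]
      · rw [Set.mem_ofPred_eq, ← eval_restr]
        exact hj.2
    · intro j hj j' hj' h
      rw [hJ1, Finset.mem_coe, Finset.mem_filter, Finset.mem_range] at hj hj'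
      have h2 := congrFun h 0
      simp only [Matrix.cons_val_zero] at h2
      exact hinj j hj.1 j' hj'.1 h2
  omega

/-- **Lower bound for the degree.** For each `k ≥ 2` and each prime `p ≥ 16 k²` there is a
`k`-bounded set such that every curve of degree less than `2k - 2` misses more than `p / (4k)`
of its points. -/
theorem result : ∀ k : ℕ, 2 ≤ k → ∀ p : ℕ, p.Prime → 16 * k ^ 2 ≤ p →
    ∃ A : Set (Fin 2 → ZMod p), KBounded p k A ∧
      ∀ f : MvPolynomial (Fin 2) (ZMod p), f ≠ 0 → f.totalDegree < 2 * k - 2 →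
        (p : ℝ) / (4 * k) <
          ((A ∩ {v : Fin 2 → ZMod p | MvPolynomial.eval v f ≠ 0}).ncard : ℝ) := by
  intro k hk p hp hkp
  have : Fact p.Prime := ⟨hp⟩
  obtain ⟨M, rfl⟩ : ∃ M, k = M + 1 := ⟨k - 1, by omega⟩
  have hM : 1 ≤ M := by omega
  set L := p / (2 * M) with hLdef
  have hL1 : 2 * M * L ≤ p := Nat.mul_div_le p (2 * M)
  have hML : 2 * (M * L) ≤ p := by rw [← mul_assoc]; exact hL1
  have hL2 : p < 2 * M * (L + 1) := by
    rw [hLdef]
    have := Nat.div_add_mod p (2 * M)
    have h2 := Nat.mod_lt p (show 0 < 2 * M by omega)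
    rw [mul_add, mul_one]
    omega
  have hL : 0 < L := by
    apply Nat.div_pos _ (by omega)
    nlinarith
  refine ⟨arcs p M L, arcs_kBounded p M L hL hML, fun f hf hdeg => ?_⟩
  have hdeg' : f.totalDegree < 2 * M := by omega
  have hex : ∃ i < M, restr ((i : ℕ) : ZMod p) f ≠ 0 := by
    by_contra hcon
    push Not at hcon
    have hinj : ∀ i < M, ∀ j < M, ((i : ℕ) : ZMod p) = ((j : ℕ) : ZMod p) → i = j := by
      intro i hi j hj h
      have h1 := congrArg ZMod.val h
      rw [ZMod.val_natCast_of_lt (by nlinarith), ZMod.val_natCast_of_lt (by nlinarith)] at h1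
      exact h1
    have := degree_of_vanish M (fun i => ((i : ℕ) : ZMod p)) hinj f hf hcon
    omega
  obtain ⟨i, hi, hfi⟩ := hex
  have h1 := many_off p M L hL hML f i hi hfi
  set N := (arcs p M L ∩ {v : Fin 2 → ZMod p | MvPolynomial.eval v f ≠ 0}).ncard with hN
  have h2 : L < N + 4 * M := by omega
  have h3 : (L : ℝ) + 1 ≤ N + 4 * M := by exact_mod_cast h2
  have h4 : (p : ℝ) < 2 * M * (L + 1) := by exact_mod_cast hL2
  have hMr : (1 : ℝ) ≤ M := by exact_mod_cast hM
  have hkp' : 16 * ((M : ℝ) + 1) ^ 2 ≤ p := by exact_mod_cast hkp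
  push_cast
  rw [div_lt_iff₀ (by positivity)]
  -- `p < 2 M (N + 4 M)`, so `N > p / (2M) - 4M`
  have h5 : (p : ℝ) < 2 * M * (N + 4 * M) := by
    refine h4.trans_le ?_
    exact mul_le_mul_of_nonneg_left h3 (by positivity)
  have h6 : (p : ℝ) * (2 * (M + 1)) < (2 * M * (N + 4 * M)) * (2 * (M + 1)) :=
    mul_lt_mul_of_pos_right h5 (by positivity)
  -- want `p < N * (4 (M+1))`
  have h7 : (p : ℝ) * (M + 2) < M * (N * (4 * (M + 1))) + 16 * M ^ 2 * (M + 1) - p * M := by
    nlinarith
  nlinarith

/-- Each admissible degree for `k` is at least `2k - 2`. -/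
theorem le_of_degreeWorks (k D : ℕ) (hk : 2 ≤ k) (hD : DegreeWorks k D) : 2 * k - 2 ≤ D := by
  by_contra hlt
  push Not at hlt
  obtain ⟨p₀, hp₀⟩ := hD (1 / (4 * k)) (by positivity)
  obtain ⟨p, hple, hp⟩ := Nat.exists_infinite_primes (max p₀ (16 * k ^ 2))
  obtain ⟨A, hA, hAf⟩ := result k hk p hp ((le_max_right _ _).trans hple)
  obtain ⟨f, hf, hfD, hcard⟩ := hp₀ p hp ((le_max_left _ _).trans hple) A hA
  have h1 := hAf f hf (by omega)
  have h2 : (1 : ℝ) / (4 * k) * p = p / (4 * k) := by ring
  rw [h2] at hcard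
  linarith

end Pool.Agent.Results.MP_3ac1bb_co.DegreeLowerBound
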