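import Pool.Agent.W_3ac1bb_h30.Main

/-!
# The size of sets meeting every line of the affine plane over `F_p` in at most `k` points
-/

set_option autoImplicit false

namespace Pool.Agent.Results.MP_3ac1bb_co.SizeBound

/-- For `k ≥ 5` and primes `p ≥ 1000 k ^ 2`, a subset of the affine plane over `F_p` meeting each
line in at most `k` points has at most `(k - 1 - 1 / (30 k)) p` points. -/
theorem result (k : ℕ) (hk : 5 ≤ k) (p : ℕ) (hp : p.Prime) (hp0 : 1000 * k ^ 2 ≤ p)
    (A : Set (Fin 2 → ZMod p))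
    (hA : ∀ a b c : ZMod p, (a ≠ 0 ∨ b ≠ 0) →
      (A ∩ {v : Fin 2 → ZMod p | a * v 0 + b * v 1 = c}).ncard ≤ k) :
    (A.ncard : ℝ) ≤ ((k : ℝ) - 1 - 1 / (30 * k)) * p :=
  KB30.main k hk p hp hp0 A hA

end Pool.Agent.Results.MP_3ac1bb_co.SizeBound
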